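import Mathlib

/-!
# Project UC (helper74): a geometric sum
-/

set_option autoImplicit false

namespace Pool.Agent.Run7.h136.UC

/-- geometric sum -/
theorem geo_le (q J : ℕ) (h : q ≤ J) : ∑ j ∈ Finset.Ico q J, Real.exp (-(j : ℝ)) ≤
    2 * (Real.exp (-(q : ℝ)) - Real.exp (-(J : ℝ))) := by
  induction J, h using Nat.le_induction with
  | base => simp
  | succ J hJ ih =>
    rw [Finset.sum_Ico_succ_top hJ]
    have h1 : 2 * Real.exp (-((J + 1 : ℕ) : ℝ)) ≤ Real.exp (-(J : ℝ)) := by
      have h2 : Real.exp (-(J : ℝ)) = Real.exp 1 * Real.exp (-((J + 1 : ℕ) : ℝ)) := by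
        rw [← Real.exp_add]
        congr 1
        push_cast
        ring
      have h3 : (2 : ℝ) ≤ Real.exp 1 := by
        have := Real.add_one_le_exp (1 : ℝ)
        linarith
      rw [h2]
      gcongr
    linarith

/-- the sum over the blocks -/
theorem geo_A {A : ℝ} (hA : 1 ≤ A) (q J : ℕ) :
    ∑ j ∈ Finset.Ico q J, Real.exp (-((A + 1) * (j : ℝ))) ≤ 2 * Real.exp (-(A * (q : ℝ))) := by
  rcases le_total q J with h | h
  · have h1 : ∀ j ∈ Finset.Ico q J, Real.exp (-((A + 1) * (j : ℝ))) ≤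
        Real.exp (-(A * (q : ℝ))) * Real.exp (-(j : ℝ)) := by
      intro j hj
      rw [← Real.exp_add, Real.exp_le_exp]
      have h2 : (q : ℝ) ≤ j := by exact_mod_cast (Finset.mem_Ico.1 hj).1
      nlinarith
    refine (Finset.sum_le_sum h1).trans ?_
    rw [← Finset.mul_sum]
    have h3 := geo_le q J h
    have h4 : Real.exp (-(q : ℝ)) ≤ 1 := by
      rw [Real.exp_le_one_iff]
      have : (0 : ℝ) ≤ q := Nat.cast_nonneg _
      linarith
    have h5 := Real.exp_pos (-(J : ℝ))
    have h6 : ∑ j ∈ Finset.Ico q J, Real.exp (-(j : ℝ)) ≤ 2 := by linarith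
    have h7 := Real.exp_pos (-(A * (q : ℝ)))
    nlinarith
  · rw [Finset.Ico_eq_empty_of_le h]
    simp only [Finset.sum_empty]
    positivity

end Pool.Agent.Run7.h136.UC
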