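import Pool.Agent.Run7.h136.UC.STRAcore
import Pool.Agent.Run7.h136.UC.Geo

/-!
# Project UC (helper74), job ERV: the truncation error in the mean `V → ∞`
-/

set_option autoImplicit false

namespace Pool.Agent.Run7.h136.UC

open Pool.Agent.Q97.UM Pool.Agent.Q176.UM MeasureTheory Complex Filter Topology

noncomputable section

theorem qb_cmul (D : ℝ) (c : ℂ) (a a2 : ℕ → ℂ) (j n : ℕ) :
    qb D (fun n => c * a n) (fun n => c * a2 n) j n = c * qb D a a2 j n := by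
  unfold qb
  split_ifs <;> ring

theorem zf_cmul (D : ℝ) (c : ℂ) (a a2 : ℕ → ℂ) (j : ℕ) (t : ℝ) :
    zf D (fun n => c * a n) (fun n => c * a2 n) j t = c * zf D a a2 j t := by
  unfold zf dp
  rw [Finset.mul_sum]
  refine Finset.sum_congr rfl fun n _ => ?_
  rw [qb_cmul]
  ring

theorem Ef_cmul (D κ : ℝ) (c : ℂ) (a a2 : ℕ → ℂ) (j₀ : ℕ) (t : ℝ) :
    Ef D κ (fun n => c * a n) (fun n => c * a2 n) j₀ t =
      ∏ l ∈ Finset.Ico j₀ (JB D), TEx (R9 κ l) (c * zf D a a2 l t) := by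
  unfold Ef
  exact Finset.prod_congr rfl fun l _ => by rw [zf_cmul]

/-- the first part of PTW -/
def PtwS : Prop := ∀ A : ℝ, 1 ≤ A → ∃ C : ℝ, 1 ≤ C ∧ ∀ κ : ℝ, 4 ≤ κ → ∀ (J j₀ : ℕ) (z : ℕ → ℂ),
  ‖cexp (I * ((∑ l ∈ Finset.Ico j₀ J, z l).re : ℝ)) -
      (∏ l ∈ Finset.Ico j₀ J, TEx (R9 κ l) (I / 2 * z l)) *
      (starRingEnd ℂ) (∏ l ∈ Finset.Ico j₀ J, TEx (R9 κ l) (-(I / 2) * z l))‖ ≤
    C * (Real.exp (-(A * j₀)) + ∑ j ∈ Finset.Ico j₀ J,
      Real.exp (∑ l ∈ Finset.range (j + 1), ‖z l‖) * (20 * ‖z j‖ / R9 κ j) ^ (2 * s7 j))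

theorem erv_core : PtwS → StraS → S_MVL → ∀ A : ℝ, 1 ≤ A → ∃ κ₀ : ℝ, 4 ≤ κ₀ ∧ ∀ κ : ℝ, κ₀ ≤ κ →
    ∃ C : ℝ, 1 ≤ C ∧ ∀ D : ℝ, 1 ≤ D → ∀ a a2 : ℕ → ℂ, (∀ n, ‖a n‖ ≤ 1) → (∀ n, ‖a2 n‖ ≤ 1) →
  ∀ (N : ℕ) (b : ℕ → ℂ), 1 ≤ N → Real.log N ≤ D → (∀ n, b n ≠ 0 → 1 ≤ n ∧ n ≤ N) → ∀ j₀ : ℕ,
    MB (fun t => ‖cexp (I * ((∑ l ∈ Finset.Ico j₀ (JB D), zf D a a2 l t).re : ℝ)) -
      Ef D κ (fun n => I / 2 * a n) (fun n => I / 2 * a2 n) j₀ t *
      (starRingEnd ℂ) (Ef D κ (fun n => -(I / 2) * a n) (fun n => -(I / 2) * a2 n) j₀ t)‖ *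
      ‖dp N b t‖ ^ 2) (C * Real.exp (-(A * j₀)) * N2 N b) := by
  intro hP hS hMVL A hA
  obtain ⟨CP, hCP, hP⟩ := hP A hA
  obtain ⟨κ₀, hκ₀, hS⟩ := hS (A + 1) (by linarith)
  refine ⟨κ₀, hκ₀, fun κ hκ => ?_⟩
  obtain ⟨CS, hCS, hS⟩ := hS κ hκ
  have hκ4 : 4 ≤ κ := hκ₀.trans hκ
  refine ⟨CP * (2 + 2 * CS), by nlinarith, ?_⟩
  intro D hD a a2 ha ha2 N b hN1 hND hb j₀
  have hNn := N2_nn N b
  have hzc : ∀ l : ℕ, Continuous (zf D a a2 l) := fun l => zf_cont _ _ _ _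
  have hdc : Continuous (dp N b) := dp_cont N b
  -- the terms
  have y1 : MB (fun t => Real.exp (-(A * (j₀ : ℝ))) * ‖dp N b t‖ ^ 2)
      (Real.exp (-(A * (j₀ : ℝ))) * (2 * N2 N b)) := MB.cmul (Real.exp_pos _).le (MB_dp hMVL N b)
  have y2 := MB.sum (Finset.Ico j₀ (JB D)) (F := fun j t => ‖dp N b t‖ ^ 2 *
      Real.exp (6 * ∑ l ∈ Finset.range (j + 1), ‖zf D a a2 l t‖) *
      (1 + (20 * ‖zf D a a2 j t‖ / R9 κ j) ^ (2 * s7 j)) *
      (20 * ‖zf D a a2 j t‖ / R9 κ j) ^ (2 * s7 j))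
    (C := fun j => CS * Real.exp (-((A + 1) * (j : ℝ))) * N2 N b)
    (fun j _ => by
      refine Continuous.mul (Continuous.mul (Continuous.mul (hdc.norm.pow 2) ?_) ?_) ?_
      · exact Real.continuous_exp.comp (continuous_const.mul
          (continuous_finsetSum _ fun l _ => (hzc l).norm))
      · exact continuous_const.add (((continuous_const.mul (hzc j).norm).div_const _).pow _)
      · exact ((continuous_const.mul (hzc j).norm).div_const _).pow _)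
    (fun j _ => hS D hD a a2 ha ha2 N b hN1 hND hb j j)
  have c1 : Continuous fun t => Real.exp (-(A * (j₀ : ℝ))) * ‖dp N b t‖ ^ 2 :=
    continuous_const.mul (hdc.norm.pow 2)
  have c2 : Continuous fun t => ∑ j ∈ Finset.Ico j₀ (JB D), ‖dp N b t‖ ^ 2 *
      Real.exp (6 * ∑ l ∈ Finset.range (j + 1), ‖zf D a a2 l t‖) *
      (1 + (20 * ‖zf D a a2 j t‖ / R9 κ j) ^ (2 * s7 j)) *
      (20 * ‖zf D a a2 j t‖ / R9 κ j) ^ (2 * s7 j) := by
    refine continuous_finsetSum _ fun j _ => ?_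
    refine Continuous.mul (Continuous.mul (Continuous.mul (hdc.norm.pow 2) ?_) ?_) ?_
    · exact Real.continuous_exp.comp (continuous_const.mul
        (continuous_finsetSum _ fun l _ => (hzc l).norm))
    · exact continuous_const.add (((continuous_const.mul (hzc j).norm).div_const _).pow _)
    · exact ((continuous_const.mul (hzc j).norm).div_const _).pow _
  have y3 := MB.cmul (c := CP) (by linarith) (MB.add c1 c2 y1 y2)
  have hEc1 := Ef_cont D κ (fun n => I / 2 * a n) (fun n => I / 2 * a2 n) j₀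
  have hEc2 := Ef_cont D κ (fun n => -(I / 2) * a n) (fun n => -(I / 2) * a2 n) j₀
  have y4 : MB (fun t => ‖cexp (I * ((∑ l ∈ Finset.Ico j₀ (JB D), zf D a a2 l t).re : ℝ)) -
      Ef D κ (fun n => I / 2 * a n) (fun n => I / 2 * a2 n) j₀ t *
      (starRingEnd ℂ) (Ef D κ (fun n => -(I / 2) * a n) (fun n => -(I / 2) * a2 n) j₀ t)‖ *
      ‖dp N b t‖ ^ 2) (CP * (Real.exp (-(A * (j₀ : ℝ))) * (2 * N2 N b) +
      ∑ j ∈ Finset.Ico j₀ (JB D), CS * Real.exp (-((A + 1) * (j : ℝ))) * N2 N b)) := by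
    refine MB.mono ?_ (continuous_const.mul (c1.add c2)) (fun t => ?_) y3
    · refine Continuous.mul (Continuous.norm (Continuous.sub ?_ ?_)) (hdc.norm.pow 2)
      · refine Complex.continuous_exp.comp (continuous_const.mul ?_)
        exact Complex.continuous_ofReal.comp (Complex.continuous_re.comp
          (continuous_finsetSum _ fun l _ => hzc l))
      · exact hEc1.mul (Complex.continuous_conj.comp hEc2)
    · have h := hP κ hκ4 (JB D) j₀ (fun l => zf D a a2 l t)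
      rw [Ef_cmul, Ef_cmul]
      have hd : 0 ≤ ‖dp N b t‖ ^ 2 := by positivity
      have h2 := mul_le_mul_of_nonneg_right h hd
      refine h2.trans ?_
      rw [mul_assoc]
      refine mul_le_mul_of_nonneg_left ?_ (by linarith)
      rw [add_mul, Finset.sum_mul]
      refine add_le_add le_rfl (Finset.sum_le_sum fun j _ => ?_)
      have hs : 0 ≤ ∑ l ∈ Finset.range (j + 1), ‖zf D a a2 l t‖ :=
        Finset.sum_nonneg fun l _ => norm_nonneg _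
      have hY : 0 ≤ (20 * ‖zf D a a2 j t‖ / R9 κ j) ^ (2 * s7 j) := by positivity
      have h3 : Real.exp (∑ l ∈ Finset.range (j + 1), ‖zf D a a2 l t‖) ≤
          Real.exp (6 * ∑ l ∈ Finset.range (j + 1), ‖zf D a a2 l t‖) := by
        rw [Real.exp_le_exp]
        linarith
      calc Real.exp (∑ l ∈ Finset.range (j + 1), ‖zf D a a2 l t‖) *
            (20 * ‖zf D a a2 j t‖ / R9 κ j) ^ (2 * s7 j) * ‖dp N b t‖ ^ 2
          = ‖dp N b t‖ ^ 2 * Real.exp (∑ l ∈ Finset.range (j + 1), ‖zf D a a2 l t‖) * 1 *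
            (20 * ‖zf D a a2 j t‖ / R9 κ j) ^ (2 * s7 j) := by ring
        _ ≤ _ := by
            gcongr
            linarith
  refine MB.le ?_ y4
  have h5 : ∑ j ∈ Finset.Ico j₀ (JB D), CS * Real.exp (-((A + 1) * (j : ℝ))) * N2 N b ≤
      CS * (2 * Real.exp (-(A * (j₀ : ℝ)))) * N2 N b := by
    rw [← Finset.sum_mul, ← Finset.mul_sum]
    have := geo_A hA j₀ (JB D)
    gcongr
  have h6 : CP * (Real.exp (-(A * (j₀ : ℝ))) * (2 * N2 N b) +
      ∑ j ∈ Finset.Ico j₀ (JB D), CS * Real.exp (-((A + 1) * (j : ℝ))) * N2 N b) ≤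
      CP * (Real.exp (-(A * (j₀ : ℝ))) * (2 * N2 N b) +
        CS * (2 * Real.exp (-(A * (j₀ : ℝ)))) * N2 N b) := by
    have : 0 ≤ CP := by linarith
    gcongr
  refine h6.trans (le_of_eq ?_)
  ring

end

end Pool.Agent.Run7.h136.UC
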