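import Pool.Agent.Run7.h74.UC.Iface
import Pool.Agent.Run7.h136.UC.ERVcore

/-!
# Project UC (helper74), job ERV
-/

set_option autoImplicit false

namespace Pool.Agent.Run7.h136.UC

open Pool.Agent.Q97.UM Pool.Agent.Run7.h74.UC

theorem t_ERV : J_ERV := fun hP hS hM =>
  erv_core (fun A hA => (hP A hA).imp fun C h => ⟨h.1, fun κ hκ J j₀ z => (h.2 κ hκ J j₀ z).1⟩) hS hM

end Pool.Agent.Run7.h136.UC
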