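import Pool.Agent.Q195.UM.PT1
import Pool.Agent.Run7.h136.UC.Geo

/-!
# Project UC (helper74), job PTW: the pointwise inequalities
-/

set_option autoImplicit false

namespace Pool.Agent.Run7.h136.UC.Ptw

open Pool.Agent.Q97.UM Complex Pool.Agent.Run7.h136.UC

noncomputable section

theorem cj (z : ℂ) : cexp (I / 2 * z) * (starRingEnd ℂ) (cexp (-(I / 2) * z)) =
    cexp (I * ((z.re : ℝ) : ℂ)) := by
  rw [← Complex.exp_conj, ← Complex.exp_add]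
  congr 1
  have h := Complex.add_conj z
  have h2 : ((2 * z.re : ℝ) : ℂ) = 2 * ((z.re : ℝ) : ℂ) := by push_cast; ring
  rw [map_mul, map_neg, map_div₀, Complex.conj_I, map_ofNat]
  calc I / 2 * z + -(-I / 2) * (starRingEnd ℂ) z = I / 2 * (z + (starRingEnd ℂ) z) := by ring
    _ = I * ((z.re : ℝ) : ℂ) := by rw [h]; push_cast; ring

theorem nab (z : ℂ) : ‖cexp (I / 2 * z)‖ * ‖cexp (-(I / 2) * z)‖ = 1 := by
  rw [← norm_mul, ← Complex.exp_add]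
  have : I / 2 * z + -(I / 2) * z = 0 := by ring
  rw [this]
  simp

theorem n1 (z : ℂ) : ‖I / 2 * z‖ = ‖z‖ / 2 := by
  rw [norm_mul, norm_div, Complex.norm_I]
  norm_num
  ring

theorem n2 (z : ℂ) : ‖-(I / 2) * z‖ = ‖z‖ / 2 := by
  rw [neg_mul, norm_neg, n1]

theorem ne (r : ℝ) : ‖cexp (I * (r : ℂ))‖ = 1 := by
  rw [mul_comm]
  exact Complex.norm_exp_ofReal_mul_I r

/-- one block which is good -/
theorem good (hT : S_TEX) {κ : ℝ} (hκ : 4 ≤ κ) (l : ℕ) (z : ℂ) (hz : ‖z‖ ≤ (R9 κ l : ℝ) / 20) :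
    ‖TEx (R9 κ l) (I / 2 * z) * (starRingEnd ℂ) (TEx (R9 κ l) (-(I / 2) * z)) -
      cexp (I * ((z.re : ℝ) : ℂ))‖ ≤ 3 * Real.exp (-(R9 κ l : ℝ) / 2) ∧
    ‖TEx (R9 κ l) (I / 2 * z)‖ * ‖TEx (R9 κ l) (-(I / 2) * z)‖ ≤
      Real.exp (2 * Real.exp (-(R9 κ l : ℝ) / 2)) := by
  have h0 := Pool.Agent.Q195.UM.R9_lo hκ l
  have hl : (0 : ℝ) ≤ l := Nat.cast_nonneg _
  have h1 : 1 ≤ R9 κ l := by
    have : (1 : ℝ) ≤ (R9 κ l : ℝ) := by linarith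
    exact_mod_cast this
  have hR0 : (0 : ℝ) ≤ (R9 κ l : ℝ) := Nat.cast_nonneg _
  have hu := (hT (R9 κ l) (I / 2 * z) h1).2 (by rw [n1]; linarith)
  have hv := (hT (R9 κ l) (-(I / 2) * z) h1).2 (by rw [n2]; linarith)
  obtain ⟨x, hx⟩ : ∃ x : ℝ, x = Real.exp (-(R9 κ l : ℝ) / 2) := ⟨_, rfl⟩
  rw [← hx] at hu hv ⊢
  have hx0 : 0 < x := by rw [hx]; exact Real.exp_pos _
  have hx1 : x ≤ 1 := by
    rw [hx, Real.exp_le_one_iff]
    linarith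
  have hn := nab z
  have hc := cj z
  obtain ⟨α, hα⟩ : ∃ α : ℂ, α = cexp (I / 2 * z) := ⟨_, rfl⟩
  obtain ⟨β, hβ⟩ : ∃ β : ℂ, β = cexp (-(I / 2) * z) := ⟨_, rfl⟩
  obtain ⟨u, hu'⟩ : ∃ u : ℂ, u = TEx (R9 κ l) (I / 2 * z) := ⟨_, rfl⟩
  obtain ⟨v, hv'⟩ : ∃ v : ℂ, v = TEx (R9 κ l) (-(I / 2) * z) := ⟨_, rfl⟩
  rw [← hα, ← hu'] at hu
  rw [← hβ, ← hv'] at hv
  rw [← hα, ← hβ] at hn hc
  rw [← hu', ← hv', ← hc]
  have eu : ‖u‖ ≤ (1 + x) * ‖α‖ := by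
    have h4 := norm_sub_norm_le u α
    linarith
  have ev : ‖v‖ ≤ (1 + x) * ‖β‖ := by
    have h4 := norm_sub_norm_le v β
    linarith
  have ha0 := norm_nonneg α
  have hb0 := norm_nonneg β
  have hv0 := norm_nonneg v
  constructor
  · have e : u * (starRingEnd ℂ) v - α * (starRingEnd ℂ) β =
        (u - α) * (starRingEnd ℂ) v + α * (starRingEnd ℂ) (v - β) := by
      rw [map_sub]
      ring
    rw [e]
    refine (norm_add_le _ _).trans ?_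
    rw [norm_mul, norm_mul, Complex.norm_conj, Complex.norm_conj]
    calc ‖u - α‖ * ‖v‖ + ‖α‖ * ‖v - β‖ ≤
        (x * ‖α‖) * ((1 + x) * ‖β‖) + ‖α‖ * (x * ‖β‖) := by gcongr
      _ = (x * (1 + x) + x) * (‖α‖ * ‖β‖) := by ring
      _ = x * (1 + x) + x := by rw [hn, mul_one]
      _ ≤ 3 * x := by nlinarith
  · have h5 : 1 + x ≤ Real.exp x := by
      have := Real.add_one_le_exp x
      linarith
    calc ‖u‖ * ‖v‖ ≤ ((1 + x) * ‖α‖) * ((1 + x) * ‖β‖) := by gcongr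
      _ = (1 + x) * (1 + x) * (‖α‖ * ‖β‖) := by ring
      _ = (1 + x) * (1 + x) := by rw [hn, mul_one]
      _ ≤ Real.exp x * Real.exp x := by gcongr
      _ = Real.exp (2 * x) := by rw [← Real.exp_add]; ring_nf

/-- one block, in general -/
theorem any (hT : S_TEX) {κ : ℝ} (hκ : 4 ≤ κ) (l : ℕ) (z : ℂ) :
    ‖TEx (R9 κ l) (I / 2 * z)‖ * ‖TEx (R9 κ l) (-(I / 2) * z)‖ ≤ Real.exp ‖z‖ := by
  have h0 := Pool.Agent.Q195.UM.R9_lo hκ l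
  have hl : (0 : ℝ) ≤ l := Nat.cast_nonneg _
  have h1 : 1 ≤ R9 κ l := by
    have : (1 : ℝ) ≤ (R9 κ l : ℝ) := by linarith
    exact_mod_cast this
  have hu := (hT (R9 κ l) (I / 2 * z) h1).1
  have hv := (hT (R9 κ l) (-(I / 2) * z) h1).1
  rw [n1] at hu
  rw [n2] at hv
  calc ‖TEx (R9 κ l) (I / 2 * z)‖ * ‖TEx (R9 κ l) (-(I / 2) * z)‖ ≤
      Real.exp (‖z‖ / 2) * Real.exp (‖z‖ / 2) := by gcongr
    _ = Real.exp ‖z‖ := by rw [← Real.exp_add]; ring_nf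

/-- the sizes of the truncation errors -/
theorem xA {κ A : ℝ} (hκ : 4 ≤ κ) (l : ℕ) :
    Real.exp (-(R9 κ l : ℝ) / 2) ≤ Real.exp ((A + 1) ^ 2 / 2) * Real.exp (-((A + 1) * (l : ℝ))) := by
  rw [← Real.exp_add, Real.exp_le_exp]
  have h1 : κ * Real.exp (9 / 10 * (l : ℝ)) ≤ (R9 κ l : ℝ) := Nat.le_ceil _
  have hl : (0 : ℝ) ≤ l := Nat.cast_nonneg _
  have h2 : 1 + 9 / 10 * (l : ℝ) + (9 / 10 * (l : ℝ)) ^ 2 / 2 ≤ Real.exp (9 / 10 * (l : ℝ)) :=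
    Real.quadratic_le_exp_of_nonneg (by positivity)
  have h3 : 4 * Real.exp (9 / 10 * (l : ℝ)) ≤ κ * Real.exp (9 / 10 * (l : ℝ)) :=
    mul_le_mul_of_nonneg_right hκ (Real.exp_pos _).le
  nlinarith [sq_nonneg ((l : ℝ) - (A + 1)), sq_nonneg (l : ℝ)]

theorem sum_half {κ : ℝ} (hκ : 4 ≤ κ) (q J : ℕ) :
    ∑ l ∈ Finset.Ico q J, Real.exp (-(R9 κ l : ℝ) / 2) ≤ 1 / 2 := by
  calc ∑ l ∈ Finset.Ico q J, Real.exp (-(R9 κ l : ℝ) / 2) ≤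
      ∑ l ∈ Finset.Ico q J, 1 / 4 * (1 / 2 : ℝ) ^ l :=
        Finset.sum_le_sum fun l _ => Pool.Agent.Q195.UM.x_le hκ l
    _ ≤ ∑ l ∈ Finset.range J, 1 / 4 * (1 / 2 : ℝ) ^ l := by
        refine Finset.sum_le_sum_of_subset_of_nonneg ?_ fun l _ _ => by positivity
        intro l hl
        exact Finset.mem_range.2 (Finset.mem_Ico.1 hl).2
    _ = 1 / 4 * ∑ l ∈ Finset.range J, (1 / 2 : ℝ) ^ l := by rw [Finset.mul_sum]
    _ ≤ 1 / 2 := by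
        have := Pool.Agent.Q195.UM.geo J
        linarith

theorem sum_A {κ A : ℝ} (hκ : 4 ≤ κ) (hA : 1 ≤ A) (q J : ℕ) :
    ∑ l ∈ Finset.Ico q J, Real.exp (-(R9 κ l : ℝ) / 2) ≤
      2 * Real.exp ((A + 1) ^ 2 / 2) * Real.exp (-(A * (q : ℝ))) := by
  calc ∑ l ∈ Finset.Ico q J, Real.exp (-(R9 κ l : ℝ) / 2) ≤
      ∑ l ∈ Finset.Ico q J, Real.exp ((A + 1) ^ 2 / 2) * Real.exp (-((A + 1) * (l : ℝ))) :=
        Finset.sum_le_sum fun l _ => xA hκ l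
    _ = Real.exp ((A + 1) ^ 2 / 2) * ∑ l ∈ Finset.Ico q J, Real.exp (-((A + 1) * (l : ℝ))) := by
        rw [Finset.mul_sum]
    _ ≤ Real.exp ((A + 1) ^ 2 / 2) * (2 * Real.exp (-(A * (q : ℝ)))) := by
        have := geo_A hA q J
        gcongr
    _ = _ := by ring

/-- the exponential minus one -/
theorem expm {s : ℝ} (hs0 : 0 ≤ s) (hs : s ≤ 3 / 2) : Real.exp s - 1 ≤ Real.exp (3 / 2) * s := by
  have h1 : 1 - s ≤ Real.exp (-s) := by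
    have := Real.add_one_le_exp (-s)
    linarith
  have h2 : Real.exp s * (1 - s) ≤ Real.exp s * Real.exp (-s) :=
    mul_le_mul_of_nonneg_left h1 (Real.exp_pos _).le
  rw [← Real.exp_add, add_neg_cancel, Real.exp_zero] at h2
  have h3 : Real.exp s ≤ Real.exp (3 / 2) := Real.exp_le_exp.2 hs
  nlinarith

/-- all blocks are good: the difference -/
theorem diff_good (hT : S_TEX) {κ : ℝ} (hκ : 4 ≤ κ) (q J : ℕ) (z : ℕ → ℂ)
    (hz : ∀ l ∈ Finset.Ico q J, ‖z l‖ ≤ (R9 κ l : ℝ) / 20) :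
    ‖cexp (I * ((∑ l ∈ Finset.Ico q J, z l).re : ℝ)) -
      (∏ l ∈ Finset.Ico q J, TEx (R9 κ l) (I / 2 * z l)) *
      (starRingEnd ℂ) (∏ l ∈ Finset.Ico q J, TEx (R9 κ l) (-(I / 2) * z l))‖ ≤
      Real.exp (3 / 2) * (3 * ∑ l ∈ Finset.Ico q J, Real.exp (-(R9 κ l : ℝ) / 2)) := by
  have he : cexp (I * ((∑ l ∈ Finset.Ico q J, z l).re : ℝ)) =
      ∏ l ∈ Finset.Ico q J, cexp (I * (((z l).re : ℝ) : ℂ)) := by
    rw [← Complex.exp_sum, Complex.re_sum, Complex.ofReal_sum, Finset.mul_sum]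
  rw [he, map_prod, ← Finset.prod_mul_distrib]
  -- the quotients
  have hne : ∀ l, cexp (I * (((z l).re : ℝ) : ℂ)) ≠ 0 := fun l => Complex.exp_ne_zero _
  have hw : ∀ l, TEx (R9 κ l) (I / 2 * z l) * (starRingEnd ℂ) (TEx (R9 κ l) (-(I / 2) * z l)) =
      cexp (I * (((z l).re : ℝ) : ℂ)) * (1 + (TEx (R9 κ l) (I / 2 * z l) *
        (starRingEnd ℂ) (TEx (R9 κ l) (-(I / 2) * z l)) - cexp (I * (((z l).re : ℝ) : ℂ))) /
          cexp (I * (((z l).re : ℝ) : ℂ))) := by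
    intro l
    have := hne l
    field_simp
    ring
  rw [Finset.prod_congr rfl fun l _ => hw l, Finset.prod_mul_distrib]
  have h1 : ‖∏ l ∈ Finset.Ico q J, cexp (I * (((z l).re : ℝ) : ℂ))‖ = 1 := by
    rw [norm_prod]
    exact Finset.prod_eq_one fun l _ => ne _
  have h2 := Finset.norm_prod_one_add_sub_one_le (Finset.Ico q J) fun l =>
    (TEx (R9 κ l) (I / 2 * z l) * (starRingEnd ℂ) (TEx (R9 κ l) (-(I / 2) * z l)) -
      cexp (I * (((z l).re : ℝ) : ℂ))) / cexp (I * (((z l).re : ℝ) : ℂ))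
  have h3 : ∀ (P Q : ℂ), ‖P‖ = 1 → ‖P - P * Q‖ = ‖Q - 1‖ := by
    intro P Q hP
    have : P - P * Q = -(P * (Q - 1)) := by ring
    rw [this, norm_neg, norm_mul, hP, one_mul]
  rw [h3 _ _ h1]
  refine h2.trans ?_
  have h4 : ∑ l ∈ Finset.Ico q J, ‖(TEx (R9 κ l) (I / 2 * z l) *
      (starRingEnd ℂ) (TEx (R9 κ l) (-(I / 2) * z l)) - cexp (I * (((z l).re : ℝ) : ℂ))) /
        cexp (I * (((z l).re : ℝ) : ℂ))‖ ≤
      3 * ∑ l ∈ Finset.Ico q J, Real.exp (-(R9 κ l : ℝ) / 2) := by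
    rw [Finset.mul_sum]
    refine Finset.sum_le_sum fun l hl => ?_
    rw [norm_div, ne, div_one]
    exact (good hT hκ l (z l) (hz l hl)).1
  have h5 := sum_half hκ q J
  have h6 : 0 ≤ ∑ l ∈ Finset.Ico q J, Real.exp (-(R9 κ l : ℝ) / 2) :=
    Finset.sum_nonneg fun l _ => (Real.exp_pos _).le
  refine le_trans (sub_le_sub_right (Real.exp_le_exp.2 h4) 1) ?_
  exact expm (by linarith) (by linarith)

/-- the product of the norms of good blocks -/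
theorem prod_good (hT : S_TEX) {κ : ℝ} (hκ : 4 ≤ κ) (q J : ℕ) (z : ℕ → ℂ)
    (hz : ∀ l ∈ Finset.Ico q J, ‖z l‖ ≤ (R9 κ l : ℝ) / 20) :
    ∏ l ∈ Finset.Ico q J, (‖TEx (R9 κ l) (I / 2 * z l)‖ * ‖TEx (R9 κ l) (-(I / 2) * z l)‖) ≤
      Real.exp 1 := by
  calc ∏ l ∈ Finset.Ico q J, (‖TEx (R9 κ l) (I / 2 * z l)‖ * ‖TEx (R9 κ l) (-(I / 2) * z l)‖) ≤
      ∏ l ∈ Finset.Ico q J, Real.exp (2 * Real.exp (-(R9 κ l : ℝ) / 2)) :=
        Finset.prod_le_prod (fun l _ => by positivity) fun l hl => (good hT hκ l (z l) (hz l hl)).2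
    _ = Real.exp (2 * ∑ l ∈ Finset.Ico q J, Real.exp (-(R9 κ l : ℝ) / 2)) := by
        rw [← Real.exp_sum, Finset.mul_sum]
    _ ≤ Real.exp 1 := by
        rw [Real.exp_le_exp]
        have := sum_half hκ q J
        linarith

/-- the product of the norms if `j` is the last block which is not good -/
theorem prod_bad (hT : S_TEX) {κ : ℝ} (hκ : 4 ≤ κ) (q j J : ℕ) (hqj : q ≤ j) (hjJ : j < J)
    (z : ℕ → ℂ) (hz : ∀ l ∈ Finset.Ico (j + 1) J, ‖z l‖ ≤ (R9 κ l : ℝ) / 20) :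
    ∏ l ∈ Finset.Ico q J, (‖TEx (R9 κ l) (I / 2 * z l)‖ * ‖TEx (R9 κ l) (-(I / 2) * z l)‖) ≤
      Real.exp 1 * Real.exp (∑ l ∈ Finset.range (j + 1), ‖z l‖) := by
  rw [← Finset.prod_Ico_consecutive _ (show q ≤ j + 1 by omega) (show j + 1 ≤ J by omega),
    mul_comm (Real.exp 1)]
  refine mul_le_mul ?_ (prod_good hT hκ (j + 1) J z hz)
    (Finset.prod_nonneg fun l _ => by positivity) (Real.exp_pos _).le
  calc ∏ l ∈ Finset.Ico q (j + 1),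
        (‖TEx (R9 κ l) (I / 2 * z l)‖ * ‖TEx (R9 κ l) (-(I / 2) * z l)‖) ≤
      ∏ l ∈ Finset.Ico q (j + 1), Real.exp ‖z l‖ :=
        Finset.prod_le_prod (fun l _ => by positivity) fun l _ => any hT hκ l (z l)
    _ = Real.exp (∑ l ∈ Finset.Ico q (j + 1), ‖z l‖) := (Real.exp_sum _ _).symm
    _ ≤ _ := by
        rw [Real.exp_le_exp]
        refine Finset.sum_le_sum_of_subset_of_nonneg ?_ fun l _ _ => norm_nonneg _
        intro l hl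
        exact Finset.mem_range.2 (Finset.mem_Ico.1 hl).2

theorem ptw_core (hT : S_TEX) : ∀ A : ℝ, 1 ≤ A → ∃ C : ℝ, 1 ≤ C ∧ ∀ κ : ℝ, 4 ≤ κ →
    ∀ (J j₀ : ℕ) (z : ℕ → ℂ),
  ‖cexp (I * ((∑ l ∈ Finset.Ico j₀ J, z l).re : ℝ)) - (∏ l ∈ Finset.Ico j₀ J, TEx (R9 κ l) (I / 2 * z l)) *
      (starRingEnd ℂ) (∏ l ∈ Finset.Ico j₀ J, TEx (R9 κ l) (-(I / 2) * z l))‖ ≤
    C * (Real.exp (-(A * j₀)) + ∑ j ∈ Finset.Ico j₀ J, Real.exp (∑ l ∈ Finset.range (j + 1), ‖z l‖) * (20 * ‖z j‖ / R9 κ j) ^ (2 * s7 j)) ∧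
  ‖cexp (I * ((∑ l ∈ Finset.Ico j₀ J, z l).re : ℝ)) - (∏ l ∈ Finset.Ico j₀ J, TEx (R9 κ l) (I / 2 * z l)) *
      (starRingEnd ℂ) (∏ l ∈ Finset.Ico j₀ J, TEx (R9 κ l) (-(I / 2) * z l))‖ ≤
    C * (Real.exp (-(A * j₀)) + ∑ j ∈ Finset.Ico j₀ J, (1 + ‖(∏ l ∈ Finset.Ico j₀ J, TEx (R9 κ l) (I / 2 * z l)) *
      (∏ l ∈ Finset.Ico j₀ J, TEx (R9 κ l) (-(I / 2) * z l))‖ ^ 2) * (20 * ‖z j‖ / R9 κ j) ^ (2 * s7 j)) ∧
  ‖(∏ l ∈ Finset.Ico j₀ J, TEx (R9 κ l) (I / 2 * z l)) * (∏ l ∈ Finset.Ico j₀ J, TEx (R9 κ l) (-(I / 2) * z l))‖ ^ 2 ≤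
    C * (1 + ∑ j ∈ Finset.Ico j₀ J, Real.exp (2 * ∑ l ∈ Finset.range (j + 1), ‖z l‖) * (20 * ‖z j‖ / R9 κ j) ^ (2 * s7 j)) := by
  classical
  intro A hA
  obtain ⟨C₁, hC₁⟩ : ∃ C₁ : ℝ, C₁ = Real.exp (3 / 2) * (3 * (2 * Real.exp ((A + 1) ^ 2 / 2))) :=
    ⟨_, rfl⟩
  have hC₁0 : 0 ≤ C₁ := by rw [hC₁]; positivity
  have he1 := Real.exp_pos 1
  have he2 := Real.exp_pos 2
  refine ⟨C₁ + 2 + Real.exp 1 + Real.exp 2, by linarith, ?_⟩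
  intro κ hκ J j₀ z
  obtain ⟨C, hC⟩ : ∃ C : ℝ, C = C₁ + 2 + Real.exp 1 + Real.exp 2 := ⟨_, rfl⟩
  rw [← hC]
  have hC0 : 0 ≤ C := by rw [hC]; linarith
  -- abbreviations
  obtain ⟨W, hW⟩ : ∃ W : ℝ, W = ∏ l ∈ Finset.Ico j₀ J,
    (‖TEx (R9 κ l) (I / 2 * z l)‖ * ‖TEx (R9 κ l) (-(I / 2) * z l)‖) := ⟨_, rfl⟩
  have hW0 : 0 ≤ W := by
    rw [hW]
    exact Finset.prod_nonneg fun l _ => by positivity
  have hWn : ‖(∏ l ∈ Finset.Ico j₀ J, TEx (R9 κ l) (I / 2 * z l)) *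
      (∏ l ∈ Finset.Ico j₀ J, TEx (R9 κ l) (-(I / 2) * z l))‖ = W := by
    rw [norm_mul, norm_prod, norm_prod, ← Finset.prod_mul_distrib, hW]
  have hD : ‖cexp (I * ((∑ l ∈ Finset.Ico j₀ J, z l).re : ℝ)) -
      (∏ l ∈ Finset.Ico j₀ J, TEx (R9 κ l) (I / 2 * z l)) *
      (starRingEnd ℂ) (∏ l ∈ Finset.Ico j₀ J, TEx (R9 κ l) (-(I / 2) * z l))‖ ≤ 1 + W := by
    refine (norm_sub_le _ _).trans ?_
    rw [ne, norm_mul, Complex.norm_conj, norm_prod, norm_prod, ← Finset.prod_mul_distrib, hW]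
  rw [hWn]
  have hY0 : ∀ j, 0 ≤ (20 * ‖z j‖ / R9 κ j) ^ (2 * s7 j) := fun j => by positivity
  have hexA := Real.exp_pos (-(A * (j₀ : ℝ)))
  by_cases hg : ∀ l ∈ Finset.Ico j₀ J, ‖z l‖ ≤ (R9 κ l : ℝ) / 20
  · have h1 : ‖cexp (I * ((∑ l ∈ Finset.Ico j₀ J, z l).re : ℝ)) -
      (∏ l ∈ Finset.Ico j₀ J, TEx (R9 κ l) (I / 2 * z l)) *
      (starRingEnd ℂ) (∏ l ∈ Finset.Ico j₀ J, TEx (R9 κ l) (-(I / 2) * z l))‖ ≤
        C * Real.exp (-(A * (j₀ : ℝ))) := by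
      refine (diff_good hT hκ j₀ J z hg).trans ?_
      have h2 := sum_A hκ hA j₀ J
      calc Real.exp (3 / 2) * (3 * ∑ l ∈ Finset.Ico j₀ J, Real.exp (-(R9 κ l : ℝ) / 2)) ≤
          Real.exp (3 / 2) * (3 * (2 * Real.exp ((A + 1) ^ 2 / 2) *
            Real.exp (-(A * (j₀ : ℝ))))) := by gcongr
        _ = C₁ * Real.exp (-(A * (j₀ : ℝ))) := by rw [hC₁]; ring
        _ ≤ C * Real.exp (-(A * (j₀ : ℝ))) := by
            have : C₁ ≤ C := by rw [hC]; linarith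
            gcongr
    have h2 : W ≤ Real.exp 1 := by rw [hW]; exact prod_good hT hκ j₀ J z hg
    have s1 : 0 ≤ ∑ j ∈ Finset.Ico j₀ J, Real.exp (∑ l ∈ Finset.range (j + 1), ‖z l‖) *
        (20 * ‖z j‖ / R9 κ j) ^ (2 * s7 j) :=
      Finset.sum_nonneg fun j _ => mul_nonneg (Real.exp_pos _).le (hY0 j)
    have s2 : 0 ≤ ∑ j ∈ Finset.Ico j₀ J, (1 + W ^ 2) * (20 * ‖z j‖ / R9 κ j) ^ (2 * s7 j) :=
      Finset.sum_nonneg fun j _ => mul_nonneg (by positivity) (hY0 j)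
    have s3 : 0 ≤ ∑ j ∈ Finset.Ico j₀ J, Real.exp (2 * ∑ l ∈ Finset.range (j + 1), ‖z l‖) *
        (20 * ‖z j‖ / R9 κ j) ^ (2 * s7 j) :=
      Finset.sum_nonneg fun j _ => mul_nonneg (Real.exp_pos _).le (hY0 j)
    refine ⟨h1.trans ?_, h1.trans ?_, ?_⟩
    · exact mul_le_mul_of_nonneg_left (by linarith) hC0
    · exact mul_le_mul_of_nonneg_left (by linarith) hC0
    · have h3 : W ^ 2 ≤ Real.exp 2 := by
        have h4 : Real.exp 2 = Real.exp 1 ^ 2 := by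
          rw [← Real.exp_nat_mul]
          norm_num
        rw [h4]
        gcongr
      have h5 : Real.exp 2 ≤ C := by rw [hC]; linarith
      have h6 : 0 ≤ C * ∑ j ∈ Finset.Ico j₀ J, Real.exp (2 * ∑ l ∈ Finset.range (j + 1), ‖z l‖) *
        (20 * ‖z j‖ / R9 κ j) ^ (2 * s7 j) := mul_nonneg hC0 s3
      linarith
  · -- the last block which is not good
    push Not at hg
    obtain ⟨l₀, hl₀, hl₀'⟩ := hg
    obtain ⟨B, hB⟩ : ∃ B : Finset ℕ, B = (Finset.Ico j₀ J).filter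
      (fun l => (R9 κ l : ℝ) / 20 < ‖z l‖) := ⟨_, rfl⟩
    have hBne : B.Nonempty := ⟨l₀, by rw [hB]; exact Finset.mem_filter.2 ⟨hl₀, hl₀'⟩⟩
    obtain ⟨j, hj⟩ : ∃ j : ℕ, j = B.max' hBne := ⟨_, rfl⟩
    have hjB : j ∈ B := by rw [hj]; exact Finset.max'_mem B hBne
    have hj1 := hjB
    rw [hB, Finset.mem_filter, Finset.mem_Ico] at hj1
    obtain ⟨⟨hj2, hj3⟩, hj4⟩ := hj1
    have hjm : j ∈ Finset.Ico j₀ J := Finset.mem_Ico.2 ⟨hj2, hj3⟩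
    have hgd : ∀ l ∈ Finset.Ico (j + 1) J, ‖z l‖ ≤ (R9 κ l : ℝ) / 20 := by
      intro l hl
      rw [Finset.mem_Ico] at hl
      by_contra hcon
      have h1 : l ∈ B := by
        rw [hB, Finset.mem_filter, Finset.mem_Ico]
        exact ⟨⟨by omega, hl.2⟩, not_le.1 hcon⟩
      have h2 : l ≤ j := by
        rw [hj]
        exact Finset.le_max' B l h1
      omega
    have hR : (0 : ℝ) < (R9 κ j : ℝ) := by
      have h0 := Pool.Agent.Q195.UM.R9_lo hκ j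
      have : (0 : ℝ) ≤ j := Nat.cast_nonneg _
      linarith
    have hY1 : 1 ≤ (20 * ‖z j‖ / R9 κ j) ^ (2 * s7 j) := by
      refine one_le_pow₀ ?_
      rw [le_div_iff₀ hR]
      linarith
    have hWb : W ≤ Real.exp 1 * Real.exp (∑ l ∈ Finset.range (j + 1), ‖z l‖) := by
      rw [hW]
      exact prod_bad hT hκ j₀ j J hj2 hj3 z hgd
    obtain ⟨S, hS⟩ : ∃ S : ℝ, S = ∑ l ∈ Finset.range (j + 1), ‖z l‖ := ⟨_, rfl⟩
    have hS0 : 0 ≤ S := by rw [hS]; exact Finset.sum_nonneg fun l _ => norm_nonneg _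
    have hS1 : 1 ≤ Real.exp S := Real.one_le_exp hS0
    rw [← hS] at hWb
    have t1 : Real.exp S * (20 * ‖z j‖ / R9 κ j) ^ (2 * s7 j) ≤
        ∑ j ∈ Finset.Ico j₀ J, Real.exp (∑ l ∈ Finset.range (j + 1), ‖z l‖) *
        (20 * ‖z j‖ / R9 κ j) ^ (2 * s7 j) := by
      rw [hS]
      exact Finset.single_le_sum (f := fun j => Real.exp (∑ l ∈ Finset.range (j + 1), ‖z l‖) *
        (20 * ‖z j‖ / R9 κ j) ^ (2 * s7 j)) (fun j _ => mul_nonneg (Real.exp_pos _).le (hY0 j)) hjm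
    have t2 : (1 + W ^ 2) * (20 * ‖z j‖ / R9 κ j) ^ (2 * s7 j) ≤
        ∑ j ∈ Finset.Ico j₀ J, (1 + W ^ 2) * (20 * ‖z j‖ / R9 κ j) ^ (2 * s7 j) :=
      Finset.single_le_sum (f := fun j => (1 + W ^ 2) *
        (20 * ‖z j‖ / R9 κ j) ^ (2 * s7 j)) (fun j _ => mul_nonneg (by positivity) (hY0 j)) hjm
    have t3 : Real.exp (2 * S) * (20 * ‖z j‖ / R9 κ j) ^ (2 * s7 j) ≤
        ∑ j ∈ Finset.Ico j₀ J, Real.exp (2 * ∑ l ∈ Finset.range (j + 1), ‖z l‖) *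
        (20 * ‖z j‖ / R9 κ j) ^ (2 * s7 j) := by
      rw [hS]
      exact Finset.single_le_sum (f := fun j => Real.exp (2 * ∑ l ∈ Finset.range (j + 1), ‖z l‖) *
        (20 * ‖z j‖ / R9 κ j) ^ (2 * s7 j)) (fun j _ => mul_nonneg (Real.exp_pos _).le (hY0 j)) hjm
    have hC2 : 2 ≤ C := by rw [hC]; linarith
    have hC3 : 1 + Real.exp 1 ≤ C := by rw [hC]; linarith
    have hC4 : Real.exp 2 ≤ C := by rw [hC]; linarith
    refine ⟨hD.trans ?_, hD.trans ?_, ?_⟩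
    · calc 1 + W ≤ (1 + Real.exp 1) * Real.exp S * 1 := by nlinarith
        _ ≤ C * Real.exp S * (20 * ‖z j‖ / R9 κ j) ^ (2 * s7 j) := by gcongr
        _ = C * (Real.exp S * (20 * ‖z j‖ / R9 κ j) ^ (2 * s7 j)) := by ring
        _ ≤ _ := mul_le_mul_of_nonneg_left (by linarith) hC0
    · calc 1 + W ≤ 2 * (1 + W ^ 2) * 1 := by nlinarith [sq_nonneg (W - 1), sq_nonneg W]
        _ ≤ C * (1 + W ^ 2) * (20 * ‖z j‖ / R9 κ j) ^ (2 * s7 j) := by gcongr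
        _ = C * ((1 + W ^ 2) * (20 * ‖z j‖ / R9 κ j) ^ (2 * s7 j)) := by ring
        _ ≤ _ := mul_le_mul_of_nonneg_left (by linarith) hC0
    · have h1 : W ^ 2 ≤ Real.exp 2 * Real.exp (2 * S) := by
        calc W ^ 2 ≤ (Real.exp 1 * Real.exp S) ^ 2 := by gcongr
          _ = Real.exp 2 * Real.exp (2 * S) := by
              rw [mul_pow, ← Real.exp_nat_mul, ← Real.exp_nat_mul]
              norm_num
      calc W ^ 2 ≤ Real.exp 2 * Real.exp (2 * S) * 1 := by linarith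
        _ ≤ C * Real.exp (2 * S) * (20 * ‖z j‖ / R9 κ j) ^ (2 * s7 j) := by gcongr
        _ = C * (Real.exp (2 * S) * (20 * ‖z j‖ / R9 κ j) ^ (2 * s7 j)) := by ring
        _ ≤ _ := mul_le_mul_of_nonneg_left (by linarith) hC0

end

end Pool.Agent.Run7.h136.UC.Ptw
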