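import Pool.Agent.Run7.h74.UC.Iface
import Pool.Agent.Run7.h136.UC.PTWcore

/-!
# Project UC (helper74), job PTW
-/

set_option autoImplicit false

namespace Pool.Agent.Run7.h136.UC

open Pool.Agent.Q97.UM Pool.Agent.Run7.h74.UC

theorem t_PTW : J_PTW := fun hT => Ptw.ptw_core hT

end Pool.Agent.Run7.h136.UC
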