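import Pool.Agent.Q176.UM.STR

/-!
# Project UC (helper74), job STRA: the blocks which are not good, with any power of `e^{-j}`
-/

set_option autoImplicit false

namespace Pool.Agent.Run7.h136.UC

open Pool.Agent.Q97.UM Pool.Agent.Q176.UM MeasureTheory Complex Filter Topology

noncomputable section

/-- the last inequality, with any power -/
theorem fin_leA {K A : ℝ} (hK : 0 ≤ K) (hA : 1 ≤ A) (j : ℕ) :
    Real.exp (K * Real.exp ((j : ℝ) / 2)) * Real.exp (-(1 + 8 / 10 * (j : ℝ))) ^ s7 j ≤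
      Real.exp ((K + 2 * A) ^ 4) * Real.exp (-(A * (j : ℝ))) := by
  have hj : (0 : ℝ) ≤ j := Nat.cast_nonneg j
  rw [← Real.exp_nat_mul, ← Real.exp_add, ← Real.exp_add, Real.exp_le_exp]
  obtain ⟨u, hu⟩ : ∃ u : ℝ, u = Real.exp ((j : ℝ) / 10) := ⟨_, rfl⟩
  have hu1 : 1 ≤ u := by rw [hu]; exact Real.one_le_exp (by positivity)
  have e5 : Real.exp ((j : ℝ) / 2) = u ^ 5 := by
    rw [hu, ← Real.exp_nat_mul]
    congr 1
    push_cast
    ring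
  have e7 : Real.exp (7 / 10 * (j : ℝ)) = u ^ 7 := by
    rw [hu, ← Real.exp_nat_mul]
    congr 1
    push_cast
    ring
  have hs := s7_ge j
  rw [e7] at hs
  have h1 : (s7 j : ℝ) * -(1 + 8 / 10 * (j : ℝ)) ≤ -(u ^ 7) := by
    have h2 : u ^ 7 * 1 ≤ (s7 j : ℝ) * (1 + 8 / 10 * (j : ℝ)) := by gcongr; linarith
    linarith
  have h2 : A * (j : ℝ) ≤ 2 * A * u ^ 5 := by
    have := Real.add_one_le_exp ((j : ℝ) / 2)
    rw [e5] at this
    have h3 : (j : ℝ) ≤ 2 * u ^ 5 := by linarith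
    nlinarith
  obtain ⟨L, hL⟩ : ∃ L : ℝ, L = K + 2 * A := ⟨_, rfl⟩
  have hL1 : 1 ≤ L := by rw [hL]; linarith
  rw [e5, ← hL]
  have h3 : L * u ^ 5 - u ^ 7 ≤ L ^ 4 := by
    have h5 : 0 < u ^ 5 := by positivity
    rcases le_total L (u ^ 2) with h | h
    · have h4 : L * u ^ 5 ≤ u ^ 2 * u ^ 5 := by gcongr
      have h6 : u ^ 2 * u ^ 5 = u ^ 7 := by ring
      have h7 : 0 ≤ L ^ 4 := by positivity
      linarith
    · have h4 : u ^ 5 ≤ u ^ 6 := pow_le_pow_right₀ hu1 (by norm_num)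
      have h6 : u ^ 6 ≤ L ^ 3 := by
        calc u ^ 6 = (u ^ 2) ^ 3 := by ring
          _ ≤ L ^ 3 := by gcongr
      have h7 : L * u ^ 5 ≤ L * L ^ 3 := by
        gcongr
        exact h4.trans h6
      have h8 : 0 ≤ u ^ 7 := by positivity
      have h9 : L * L ^ 3 = L ^ 4 := by ring
      linarith
  have h10 : L * u ^ 5 = K * u ^ 5 + 2 * A * u ^ 5 := by rw [hL]; ring
  linarith

/-- the statement of STRA -/
def StraS : Prop := ∀ A : ℝ, 1 ≤ A → ∃ κ₀ : ℝ, 4 ≤ κ₀ ∧ ∀ κ : ℝ, κ₀ ≤ κ →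
    ∃ C : ℝ, 1 ≤ C ∧ ∀ D : ℝ, 1 ≤ D → ∀ a a2 : ℕ → ℂ, (∀ n, ‖a n‖ ≤ 1) → (∀ n, ‖a2 n‖ ≤ 1) →
  ∀ (N : ℕ) (b : ℕ → ℂ), 1 ≤ N → Real.log N ≤ D → (∀ n, b n ≠ 0 → 1 ≤ n ∧ n ≤ N) → ∀ j' j : ℕ,
    MB (fun t => ‖dp N b t‖ ^ 2 * Real.exp (6 * ∑ l ∈ Finset.range (j + 1), ‖zf D a a2 l t‖) *
      (1 + (20 * ‖zf D a a2 j' t‖ / R9 κ j') ^ (2 * s7 j')) *
      (20 * ‖zf D a a2 j t‖ / R9 κ j) ^ (2 * s7 j))
      (C * Real.exp (-(A * j)) * N2 N b)

theorem stra_core : S_PMT → S_XM → S_MVL → StraS := by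
  intro hPMT hXM hMVL A hA
  obtain ⟨C₂, hC₂, hPMT⟩ := hPMT
  refine ⟨max 4 (11600 * C₂ * Real.exp 1), le_max_left _ _, fun κ hκ => ?_⟩
  have hκ4 : 4 ≤ κ := (le_max_left _ _).trans hκ
  have hκe : 11600 * C₂ * Real.exp 1 ≤ κ := (le_max_right _ _).trans hκ
  obtain ⟨C₁, hC₁, hXM⟩ := hXM (26 * κ + 5) 18 1 1 (by linarith) (by norm_num) le_rfl
  obtain ⟨K, hK⟩ : ∃ K : ℝ, K = C₁ / 3 := ⟨_, rfl⟩
  have hK0 : 0 ≤ K := by rw [hK]; positivity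
  refine ⟨1 + 19 * Real.exp ((K + 2 * A) ^ 4), by
    have : 0 ≤ 19 * Real.exp ((K + 2 * A) ^ 4) := by positivity
    linarith, ?_⟩
  intro D hD a a2 ha ha2 N b hN1 hND hb j' j
  have hND' : Real.log N ≤ (26 * κ + 5) * D := by nlinarith
  have hNn := N2_nn N b
  -- the three moments
  have x1 : MB (fun t => ‖dp N b t‖ ^ 2 *
      Real.exp (18 * ∑ l ∈ Finset.range (j + 1), ‖zf D a a2 l t‖))
      (Real.exp (C₁ * Real.exp ((j : ℝ) / 2)) * N2 N b) := by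
    have h := hXM D hD (fun _ => a) (fun _ => a2) (fun _ => ha) (fun _ => ha2) N b hN1 hND' hb j
    refine MB.congr (fun t => ?_) h
    simp
  have x2 := MB_dp hMVL N b
  have x3 := blk hC₂ hPMT hκe hκ4 hD ha ha2 hN1 hND' hb (j := j')
    (r := 3 * s7 j') le_rfl
  obtain ⟨p₁, hp₁⟩ : ∃ p : ℝ, p = Real.exp (C₁ * Real.exp ((j : ℝ) / 2) / 3) := ⟨_, rfl⟩
  obtain ⟨p₃, hp₃⟩ : ∃ p : ℝ, p = Real.exp (-(1 + 8 / 10 * (j : ℝ))) ^ s7 j := ⟨_, rfl⟩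
  have hp₁0 : 0 < p₁ := by rw [hp₁]; positivity
  have hp₃0 : 0 < p₃ := by rw [hp₃]; positivity
  have hp₁3 : p₁ ^ 3 = Real.exp (C₁ * Real.exp ((j : ℝ) / 2)) := by
    rw [hp₁, ← Real.exp_nat_mul]
    congr 1
    push_cast
    ring
  have hzc : ∀ l : ℕ, Continuous (zf D a a2 l) := fun l => zf_cont _ _ _ _
  have hSc : Continuous fun t => ∑ l ∈ Finset.range (j + 1), ‖zf D a a2 l t‖ :=
    continuous_finsetSum _ fun l _ => (hzc l).norm
  have hdc : Continuous (dp N b) := dp_cont N b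
  have x4 := blk hC₂ hPMT hκe hκ4 hD ha ha2 hN1 hND' hb (j := j)
    (r := 3 * s7 j) le_rfl
  have y1 : MB (fun t => (p₁ ^ 3)⁻¹ * (‖dp N b t‖ ^ 2 *
      Real.exp (18 * ∑ l ∈ Finset.range (j + 1), ‖zf D a a2 l t‖))) (N2 N b) := by
    refine MB.le (le_of_eq ?_) (MB.cmul (c := (p₁ ^ 3)⁻¹) (by positivity) x1)
    rw [hp₁3]
    field_simp
  have y2 : MB (fun t => 4 * ‖dp N b t‖ ^ 2) (8 * N2 N b) :=
    MB.le (by linarith) (MB.cmul (c := 4) (by norm_num) x2)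
  have y3 : MB (fun t => 4 * (‖dp N b t‖ ^ 2 *
      (20 * ‖zf D a a2 j' t‖ / R9 κ j') ^ (2 * (3 * s7 j')))) (8 * N2 N b) := by
    refine MB.le ?_ (MB.cmul (c := 4) (by norm_num) x3)
    have h1 : Real.exp (-(1 + 8 / 10 * (j' : ℝ))) ^ (3 * s7 j') ≤ 1 := by
      refine pow_le_one₀ (Real.exp_pos _).le ?_
      rw [Real.exp_le_one_iff]
      have : (0 : ℝ) ≤ j' := Nat.cast_nonneg _
      linarith
    have h2 := mul_le_mul_of_nonneg_right h1 (show 0 ≤ 2 * N2 N b by linarith)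
    linarith
  have y4 : MB (fun t => (p₃ ^ 3)⁻¹ * (‖dp N b t‖ ^ 2 *
      (20 * ‖zf D a a2 j t‖ / R9 κ j) ^ (2 * (3 * s7 j)))) (2 * N2 N b) := by
    refine MB.le (le_of_eq ?_) (MB.cmul (c := (p₃ ^ 3)⁻¹) (by positivity) x4)
    rw [hp₃, ← pow_mul, mul_comm (s7 j) 3]
    field_simp
  have c1 : Continuous fun t => (p₁ ^ 3)⁻¹ * (‖dp N b t‖ ^ 2 *
      Real.exp (18 * ∑ l ∈ Finset.range (j + 1), ‖zf D a a2 l t‖)) :=
    continuous_const.mul ((hdc.norm.pow 2).mul (Real.continuous_exp.comp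
      (continuous_const.mul hSc)))
  have c2 : Continuous fun t => 4 * ‖dp N b t‖ ^ 2 := continuous_const.mul (hdc.norm.pow 2)
  have c3 : Continuous fun t => 4 * (‖dp N b t‖ ^ 2 *
      (20 * ‖zf D a a2 j' t‖ / R9 κ j') ^ (2 * (3 * s7 j'))) :=
    continuous_const.mul ((hdc.norm.pow 2).mul
      (((continuous_const.mul (hzc j').norm).div_const _).pow _))
  have c4 : Continuous fun t => (p₃ ^ 3)⁻¹ * (‖dp N b t‖ ^ 2 *
      (20 * ‖zf D a a2 j t‖ / R9 κ j) ^ (2 * (3 * s7 j))) :=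
    continuous_const.mul ((hdc.norm.pow 2).mul
      (((continuous_const.mul (hzc j).norm).div_const _).pow _))
  have y5 := MB.add ((c1.add c2).add c3) c4 (MB.add (c1.add c2) c3 (MB.add c1 c2 y1 y2) y3) y4
  have y6 := MB.cmul (c := p₁ * p₃) (by positivity) y5
  have y7 : MB (fun t => p₁ * p₃ * ((p₁ ^ 3)⁻¹ * (‖dp N b t‖ ^ 2 *
      Real.exp (18 * ∑ l ∈ Finset.range (j + 1), ‖zf D a a2 l t‖)) +
      4 * ‖dp N b t‖ ^ 2 + 4 * (‖dp N b t‖ ^ 2 *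
      (20 * ‖zf D a a2 j' t‖ / R9 κ j') ^ (2 * (3 * s7 j'))) +
      (p₃ ^ 3)⁻¹ * (‖dp N b t‖ ^ 2 *
      (20 * ‖zf D a a2 j t‖ / R9 κ j) ^ (2 * (3 * s7 j))))) (p₁ * p₃ * (19 * N2 N b)) :=
    MB.le (le_of_eq (by ring)) y6
  have one : MB (fun t => ‖dp N b t‖ ^ 2 *
        Real.exp (6 * ∑ l ∈ Finset.range (j + 1), ‖zf D a a2 l t‖) *
        (1 + (20 * ‖zf D a a2 j' t‖ / R9 κ j') ^ (2 * s7 j')) *
        (20 * ‖zf D a a2 j t‖ / R9 κ j) ^ (2 * s7 j)) (p₁ * p₃ * (19 * N2 N b)) := by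
    refine MB.mono ?_ ?_ (fun t => ?_) y7
    · refine Continuous.mul (Continuous.mul (Continuous.mul (hdc.norm.pow 2) ?_) ?_) ?_
      · exact Real.continuous_exp.comp (continuous_const.mul hSc)
      · exact continuous_const.add (((continuous_const.mul (hzc j').norm).div_const _).pow _)
      · exact ((continuous_const.mul (hzc j).norm).div_const _).pow _
    · exact continuous_const.mul (((c1.add c2).add c3).add c4)
    · have h1 := str_pt (S := ∑ l ∈ Finset.range (j + 1), ‖zf D a a2 l t‖)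
        (y := 20 * ‖zf D a a2 j' t‖ / R9 κ j') (Y := 20 * ‖zf D a a2 j t‖ / R9 κ j)
        hp₁0 hp₃0 (by positivity) (by positivity) (s7 j) (s7 j')
      have h2 := mul_le_mul_of_nonneg_left h1 (show 0 ≤ ‖dp N b t‖ ^ 2 by positivity)
      refine le_trans (le_of_eq ?_) (h2.trans (le_of_eq ?_))
      · ring
      · ring
  refine MB.le ?_ one
  have hfin := fin_leA hK0 hA j
  have e1 : p₁ = Real.exp (K * Real.exp ((j : ℝ) / 2)) := by
    rw [hp₁, hK]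
    congr 1
    ring
  calc p₁ * p₃ * (19 * N2 N b) = 19 * (p₁ * p₃) * N2 N b := by ring
    _ ≤ 19 * (Real.exp ((K + 2 * A) ^ 4) * Real.exp (-(A * (j : ℝ)))) * N2 N b := by
        rw [e1, hp₃]
        gcongr
    _ ≤ (1 + 19 * Real.exp ((K + 2 * A) ^ 4)) * Real.exp (-(A * (j : ℝ))) * N2 N b := by
        have : 0 ≤ Real.exp (-(A * (j : ℝ))) * N2 N b := by positivity
        nlinarith

end

end Pool.Agent.Run7.h136.UC
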