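import Pool.Agent.Run7.h74.UC.Iface
import Pool.Agent.Run7.h136.UC.STRAcore

/-!
# Project UC (helper74), job STRA
-/

set_option autoImplicit false

namespace Pool.Agent.Run7.h136.UC

open Pool.Agent.Q97.UM Pool.Agent.Run7.h74.UC

theorem t_STRA : J_STRA := stra_core

end Pool.Agent.Run7.h136.UC
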